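import Mathlib

/-!
# Sums of two sets of sums of few units
-/

set_option autoImplicit false

namespace Pool.Agent.N449.SP

open Finset Pointwise

variable {L : Type*} [Field L] [DecidableEq L]

/-- the numbers which are sums of at most `k` elements of `U` -/
def Sp (U : Set L) (k : ℕ) (x : L) : Prop :=
  ∃ s : Fin k → L, (∀ i, s i = 0 ∨ s i ∈ U) ∧ ∑ i, s i = x

/-- a family without vanishing subsums of nonzero terms -/
def Nd {ι : Type*} (s : ι → L) : Prop :=
  ∀ J : Finset ι, J.Nonempty → (∀ i ∈ J, s i ≠ 0) → ∑ i ∈ J, s i ≠ 0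

/-- the finiteness of the ratios in the unit equation -/
def UE (U : Set L) : Prop :=
  ∀ n : ℕ, ∃ R : Finset L, ∀ f : Fin n → L, (∀ i, f i ∈ U) → ∑ i, f i = 0 →
    (∀ J : Finset (Fin n), J.Nonempty → ∑ i ∈ J, f i = 0 → J = univ) → ∀ i j, f i / f j ∈ R

omit [DecidableEq L] in
theorem exists_rep (U : Set L) {k : ℕ} {x : L} (h : Sp U k x) :
    ∃ s : Fin k → L, (∀ i, s i = 0 ∨ s i ∈ U) ∧ ∑ i, s i = x ∧ Nd s := by
  classical
  have h1 : ∃ n, ∃ s : Fin k → L, (∀ i, s i = 0 ∨ s i ∈ U) ∧ ∑ i, s i = x ∧
      (univ.filter fun i => s i ≠ 0).card = n := by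
    obtain ⟨s, hs, hx⟩ := h
    exact ⟨_, s, hs, hx, rfl⟩
  obtain ⟨s, hs, hx, hn⟩ := Nat.find_spec h1
  refine ⟨s, hs, hx, ?_⟩
  intro J hJ hJ0 hsum
  have h2 := Nat.find_min h1 (m := (univ.filter fun i => (if i ∈ J then 0 else s i) ≠ 0).card) (by
    rw [← hn]
    refine Finset.card_lt_card ⟨?_, ?_⟩
    · intro i hi
      rw [mem_filter] at hi ⊢
      refine ⟨hi.1, fun h0 => hi.2 ?_⟩
      split_ifs <;> simp [h0]
    · intro hcc
      obtain ⟨i, hi⟩ := hJ
      have := hcc (mem_filter.2 ⟨mem_univ i, hJ0 i hi⟩)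
      rw [mem_filter, if_pos hi] at this
      exact this.2 rfl)
  refine h2 ⟨fun i => if i ∈ J then 0 else s i, ?_, ?_, rfl⟩
  · intro i
    dsimp only
    split_ifs
    · exact Or.inl rfl
    · exact hs i
  · have h3 : ∑ i, (if i ∈ J then 0 else s i) = ∑ i, s i - ∑ i ∈ J, s i := by
      rw [eq_sub_iff_add_eq, ← Finset.sum_filter_add_sum_filter_not univ (fun i => i ∈ J) s,
        Finset.filter_mem_eq_inter, Finset.univ_inter, add_comm, Finset.sum_ite, Finset.sum_const_zero,
        zero_add]
    rw [h3, hsum, hx, sub_zero]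

omit [DecidableEq L] in
/-- a minimal vanishing subfamily -/
theorem exists_min {ι : Type*} (f : ι → L) (P : Finset ι → Prop) (J₀ : Finset ι) (h0 : P J₀)
    (hs : ∑ i ∈ J₀, f i = 0) : ∃ J ⊆ J₀, P J ∧ ∑ i ∈ J, f i = 0 ∧
      ∀ J' ⊆ J, P J' → ∑ i ∈ J', f i = 0 → J' = J := by
  classical
  have h1 : ∃ n, ∃ J ⊆ J₀, P J ∧ ∑ i ∈ J, f i = 0 ∧ J.card = n :=
    ⟨_, J₀, Finset.Subset.refl _, h0, hs, rfl⟩
  obtain ⟨J, hJ, hPJ, hsJ, hn⟩ := Nat.find_spec h1
  refine ⟨J, hJ, hPJ, hsJ, ?_⟩
  intro J' hJ' hP' hs'
  by_contra hne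
  refine Nat.find_min h1 (m := J'.card) ?_ ⟨J', hJ'.trans hJ, hP', hs', rfl⟩
  rw [← hn]
  exact Finset.card_lt_card (Finset.ssubset_iff_subset_ne.2 ⟨hJ', hne⟩)

/-- all ratios for families with at most `N` terms -/
theorem ue_ratio (U : Set L) (hU : UE U) (N : ℕ) : ∃ R : Finset L,
    ∀ (ι : Type) (f : ι → L) (J : Finset ι), J.card ≤ N → (∀ i ∈ J, f i ∈ U) →
      ∑ i ∈ J, f i = 0 → (∀ J' ⊆ J, J'.Nonempty → ∑ i ∈ J', f i = 0 → J' = J) →
      ∀ i ∈ J, ∀ j ∈ J, f i / f j ∈ R := by
  classical
  choose R hR using hU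
  refine ⟨(range (N + 1)).biUnion R, ?_⟩
  intro ι f J hJ hf hs hmin i hi j hj
  rw [Finset.mem_biUnion]
  refine ⟨J.card, Finset.mem_range.2 (by omega), ?_⟩
  have key := hR J.card (fun a => f (J.equivFin.symm a)) (fun a => hf _ (J.equivFin.symm a).2)
    (by
      rw [← hs, ← Finset.sum_coe_sort J f]
      exact (J.equivFin.symm.sum_comp (fun x : J => f x)))
    (by
      intro J₂ hJ₂ hs₂
      have h1 : ∑ i ∈ J₂.image (fun a => ((J.equivFin.symm a : J) : ι)), f i = 0 := by
        rw [Finset.sum_image, hs₂]
        intro a _ b _ hab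
        exact J.equivFin.symm.injective (Subtype.ext hab)
      have h2 : J₂.image (fun a => ((J.equivFin.symm a : J) : ι)) ⊆ J := by
        intro x hx
        rw [Finset.mem_image] at hx
        obtain ⟨a, _, rfl⟩ := hx
        exact (J.equivFin.symm a).2
      have h3 := hmin _ h2 (hJ₂.image _) h1
      rw [Finset.eq_univ_iff_forall]
      intro a
      have h4 : ((J.equivFin.symm a : J) : ι) ∈ J₂.image (fun a => ((J.equivFin.symm a : J) : ι)) := by
        rw [h3]; exact (J.equivFin.symm a).2
      rw [Finset.mem_image] at h4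
      obtain ⟨b, hb, hab⟩ := h4
      have : b = a := J.equivFin.symm.injective (Subtype.ext hab)
      rwa [this] at hb)
    (J.equivFin ⟨i, hi⟩) (J.equivFin ⟨j, hj⟩)
  simpa using key

omit [DecidableEq L] in
theorem Sp.zero_iff (U : Set L) (x : L) : Sp U 0 x ↔ x = 0 := by
  constructor
  · rintro ⟨s, _, rfl⟩
    simp
  · rintro rfl
    exact ⟨fun _ => 0, fun _ => Or.inl rfl, by simp⟩

theorem two_sets (U : Set L) (hneg : ∀ u ∈ U, -u ∈ U) (hU : UE U) (l : ℕ) (k : ℕ) :
    ∃ C : ℕ, ∀ A B : Finset L, (∀ a ∈ A, Sp U k a) → (∀ b ∈ B, Sp U l b) →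
      A.card * B.card ≤ C * (A + B).card := by
  classical
  induction k with
  | zero =>
    refine ⟨1, fun A B hA hB => ?_⟩
    rcases A.eq_empty_or_nonempty with rfl | hne
    · simp
    have h1 : A.card ≤ 1 := Finset.card_le_one.2 fun a ha b hb => by
      rw [(Sp.zero_iff U a).1 (hA a ha), (Sp.zero_iff U b).1 (hA b hb)]
    calc A.card * B.card ≤ 1 * B.card := Nat.mul_le_mul_right _ h1
      _ ≤ 1 * (A + B).card := Nat.mul_le_mul_left _ (Finset.card_le_card_add_left hne)
  | succ k ih =>
    obtain ⟨C₀, hC₀⟩ := ih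
    obtain ⟨R, hR⟩ := ue_ratio U hU (2 * (k + 1 + l))
    set M : ℕ := 1 + R.card * (k + 1 + l) with hM
    refine ⟨2 * M ^ (k + 1) + 2 * ((k + 1) * l * R.card) * C₀, fun A B hA hB => ?_⟩
    -- the representations
    have hA' : ∀ a, ∃ s : Fin (k + 1) → L, a ∈ A → (∀ i, s i = 0 ∨ s i ∈ U) ∧ ∑ i, s i = a ∧ Nd s := by
      intro a
      by_cases ha : a ∈ A
      · obtain ⟨s, hs⟩ := exists_rep U (hA a ha)
        exact ⟨s, fun _ => hs⟩
      · exact ⟨fun _ => 0, fun h => absurd h ha⟩
    have hB' : ∀ b, ∃ s : Fin l → L, b ∈ B → (∀ i, s i = 0 ∨ s i ∈ U) ∧ ∑ i, s i = b ∧ Nd s := by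
      intro b
      by_cases hb : b ∈ B
      · obtain ⟨s, hs⟩ := exists_rep U (hB b hb)
        exact ⟨s, fun _ => hs⟩
      · exact ⟨fun _ => 0, fun h => absurd h hb⟩
    choose r hr using hA'
    choose t ht using hB'
    have hmemU : ∀ {ι : Type} (f : ι → L), (∀ i, f i = 0 ∨ f i ∈ U) → ∀ i, f i ≠ 0 → f i ∈ U :=
      fun f hf i hi => (hf i).resolve_left hi
    -- linked pairs
    set Lk : L × L → Prop := fun p => ∃ i j, t p.2 j ≠ 0 ∧ ∃ ρ ∈ R, r p.1 i = ρ * t p.2 j with hLk
    -- not linked pairs are nondegenerate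
    have hnd : ∀ p : L × L, p.1 ∈ A → p.2 ∈ B → ¬ Lk p → Nd (Sum.elim (r p.1) (t p.2)) := by
      intro p hpA hpB hp J hJ hJ0 hs
      apply hp
      obtain ⟨J', hJ'J, hJ'ne, hs', hmin⟩ := exists_min (Sum.elim (r p.1) (t p.2))
        (fun J => J.Nonempty) J hJ hs
      have hf : ∀ i, Sum.elim (r p.1) (t p.2) i = 0 ∨ Sum.elim (r p.1) (t p.2) i ∈ U := by
        rintro (i | j)
        · exact (hr p.1 hpA).1 i
        · exact (ht p.2 hpB).1 j
      have hfU : ∀ i ∈ J', Sum.elim (r p.1) (t p.2) i ∈ U := fun i hi =>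
        hmemU _ hf i (hJ0 i (hJ'J hi))
      -- an index on the left
      have h1 : ∃ i, Sum.inl i ∈ J' := by
        by_contra hcc
        push Not at hcc
        have h2 : J' = (univ.filter fun j => Sum.inr j ∈ J').map Function.Embedding.inr := by
          ext x
          rcases x with i | j
          · simp [hcc i]
          · simp
        have h3 := (ht p.2 hpB).2.2 (univ.filter fun j => Sum.inr j ∈ J') (by
          obtain ⟨x, hx⟩ := hJ'ne
          rcases x with i | j
          · exact absurd hx (hcc i)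
          · exact ⟨j, by simpa using hx⟩) (by
          intro j hj
          exact hJ0 (Sum.inr j) (hJ'J (by simpa using hj)))
        apply h3
        rw [h2, Finset.sum_map] at hs'
        simpa using hs'
      have h1' : ∃ j, Sum.inr j ∈ J' := by
        by_contra hcc
        push Not at hcc
        have h2 : J' = (univ.filter fun j => Sum.inl j ∈ J').map Function.Embedding.inl := by
          ext x
          rcases x with i | j
          · simp
          · simp [hcc j]
        have h3 := (hr p.1 hpA).2.2 (univ.filter fun j => Sum.inl j ∈ J') (by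
          obtain ⟨x, hx⟩ := hJ'ne
          rcases x with i | j
          · exact ⟨i, by simpa using hx⟩
          · exact absurd hx (hcc j)) (by
          intro j hj
          exact hJ0 (Sum.inl j) (hJ'J (by simpa using hj)))
        apply h3
        rw [h2, Finset.sum_map] at hs'
        simpa using hs'
      obtain ⟨i, hi⟩ := h1
      obtain ⟨j, hj⟩ := h1'
      have hj0 : t p.2 j ≠ 0 := hJ0 (Sum.inr j) (hJ'J hj)
      have hcard : J'.card ≤ 2 * (k + 1 + l) := by
        refine (Finset.card_le_univ _).trans ?_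
        rw [Fintype.card_sum, Fintype.card_fin, Fintype.card_fin]
        omega
      have h5 := hR _ (Sum.elim (r p.1) (t p.2)) J' hcard hfU hs'
        (fun J₂ h2 h3 h4 => hmin J₂ h2 h3 h4) _ hi _ hj
      refine ⟨i, j, hj0, _, h5, ?_⟩
      simp only [Sum.elim_inl, Sum.elim_inr]
      rw [div_mul_cancel₀ _ hj0]
    -- not linked pairs with the same sum
    set P := A ×ˢ B with hP
    have hcount1 : (P.filter fun p => ¬ Lk p).card ≤ M ^ (k + 1) * (A + B).card := by
      have h1 : ∀ p ∈ P.filter (fun p => ¬ Lk p), p.1 + p.2 ∈ A + B := by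
        intro p hp
        rw [mem_filter, hP, mem_product] at hp
        exact Finset.add_mem_add hp.1.1 hp.1.2
      have h2 : ∀ s ∈ A + B, ((P.filter fun p => ¬ Lk p).filter fun p => p.1 + p.2 = s).card
          ≤ M ^ (k + 1) := by
        intro s _
        rcases ((P.filter fun p => ¬ Lk p).filter fun p => p.1 + p.2 = s).eq_empty_or_nonempty with
          h0 | ⟨p₀, hp₀⟩
        · rw [h0]; simp
        rw [mem_filter, mem_filter, hP, mem_product] at hp₀
        obtain ⟨⟨⟨hp₀A, hp₀B⟩, hp₀L⟩, hp₀s⟩ := hp₀
        set F₀ : Fin (k + 1) ⊕ Fin l → L := Sum.elim (r p₀.1) (t p₀.2) with hF₀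
        set Vals : Finset L := insert 0 ((R ×ˢ (univ : Finset (Fin (k + 1) ⊕ Fin l))).image
          fun q => -(q.1 * F₀ q.2)) with hVals
        have hVc : Vals.card ≤ M := by
          refine (Finset.card_insert_le _ _).trans ?_
          refine (Nat.add_le_add_right Finset.card_image_le 1).trans ?_
          rw [Finset.card_product, hM, Finset.card_univ, Fintype.card_sum, Fintype.card_fin,
            Fintype.card_fin]
          omega
        have h3 : ∀ p ∈ (P.filter fun p => ¬ Lk p).filter (fun p => p.1 + p.2 = s),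
            ∀ i, r p.1 i ∈ Vals := by
          intro p hp i
          rw [mem_filter, mem_filter, hP, mem_product] at hp
          obtain ⟨⟨⟨hpA, hpB⟩, hpL⟩, hps⟩ := hp
          by_cases hi0 : r p.1 i = 0
          · rw [hi0]; exact Finset.mem_insert_self _ _
          set F : (Fin (k + 1) ⊕ Fin l) ⊕ (Fin (k + 1) ⊕ Fin l) → L :=
            Sum.elim (Sum.elim (r p.1) (t p.2)) (fun x => -F₀ x) with hF
          have hFU : ∀ x, F x = 0 ∨ F x ∈ U := by
            rintro ((x | x) | (x | x))
            · exact (hr p.1 hpA).1 x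
            · exact (ht p.2 hpB).1 x
            · rcases (hr p₀.1 hp₀A).1 x with h | h
              · left; simp [hF, hF₀, h]
              · right; exact hneg _ h
            · rcases (ht p₀.2 hp₀B).1 x with h | h
              · left; simp [hF, hF₀, h]
              · right; exact hneg _ h
          have hFs : ∑ x ∈ univ.filter (fun x => F x ≠ 0), F x = 0 := by
            rw [Finset.sum_filter_ne_zero, Fintype.sum_sum_type]
            simp only [hF, hF₀, Sum.elim_inl, Sum.elim_inr, Finset.sum_neg_distrib]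
            rw [Fintype.sum_sum_type, Fintype.sum_sum_type]
            simp only [Sum.elim_inl, Sum.elim_inr]
            rw [(hr p.1 hpA).2.1, (ht p.2 hpB).2.1, (hr p₀.1 hp₀A).2.1, (ht p₀.2 hp₀B).2.1, hps, hp₀s]
            ring
          obtain ⟨J, hJ, hiJ, hsJ, hmin⟩ := exists_min F (fun J => Sum.inl (Sum.inl i) ∈ J)
            (univ.filter (fun x => F x ≠ 0)) (by simp [hF, hi0]) hFs
          have hJ0 : ∀ x ∈ J, F x ≠ 0 := fun x hx => (mem_filter.1 (hJ hx)).2
          have hmin' : ∀ J' ⊆ J, J'.Nonempty → ∑ x ∈ J', F x = 0 → J' = J := by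
            intro J' hJ' hne hs'
            by_cases hi' : Sum.inl (Sum.inl i) ∈ J'
            · exact hmin J' hJ' hi' hs'
            · exfalso
              have h5 := hmin (J \ J') Finset.sdiff_subset (Finset.mem_sdiff.2 ⟨hiJ, hi'⟩) (by
                have := Finset.sum_sdiff hJ' (f := F)
                rw [hs', hsJ, add_zero] at this
                exact this)
              obtain ⟨x, hx⟩ := hne
              have h6 : x ∈ J \ J' := by rw [h5]; exact hJ' hx
              exact (Finset.mem_sdiff.1 h6).2 hx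
          -- an element on the right
          have hright : ∃ w, Sum.inr w ∈ J := by
            by_contra hcc
            push Not at hcc
            have h2 : J = (univ.filter fun j => Sum.inl j ∈ J).map Function.Embedding.inl := by
              ext x
              rcases x with x | x
              · simp
              · simp [hcc x]
            have h3 := hnd p hpA hpB hpL (univ.filter fun j => Sum.inl j ∈ J)
              ⟨Sum.inl i, by simpa using hiJ⟩ (by
              intro x hx
              exact hJ0 (Sum.inl x) (by simpa using hx))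
            apply h3
            rw [h2, Finset.sum_map] at hsJ
            simpa [hF] using hsJ
          obtain ⟨w, hw⟩ := hright
          have hw0 := hJ0 _ hw
          have hcard : J.card ≤ 2 * (k + 1 + l) := by
            refine (Finset.card_le_univ _).trans ?_
            rw [Fintype.card_sum, Fintype.card_sum, Fintype.card_fin, Fintype.card_fin]
            omega
          have h5 := hR _ F J hcard (fun x hx => hmemU F hFU x (hJ0 x hx)) hsJ hmin' _ hiJ _ hw
          rw [hVals, Finset.mem_insert, Finset.mem_image]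
          right
          refine ⟨(_, w), Finset.mem_product.2 ⟨h5, mem_univ _⟩, ?_⟩
          have e1 : F (Sum.inr w) = -F₀ w := rfl
          have e2 : F (Sum.inl (Sum.inl i)) = r p.1 i := rfl
          dsimp only
          rw [← mul_neg, ← e1, div_mul_cancel₀ _ hw0, e2]
        calc _ ≤ (Fintype.piFinset fun _ : Fin (k + 1) => Vals).card := by
              refine Finset.card_le_card_of_injOn (fun p => r p.1) ?_ ?_
              · intro p hp
                rw [Finset.mem_coe, Fintype.mem_piFinset]
                exact h3 p hp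
              · intro p hp p' hp' hpp
                rw [Finset.mem_coe, mem_filter, mem_filter, hP, mem_product] at hp hp'
                have e1 : p.1 = p'.1 := by
                  rw [← (hr p.1 hp.1.1.1).2.1, ← (hr p'.1 hp'.1.1.1).2.1]
                  exact Finset.sum_congr rfl fun i _ => congrFun hpp i
                have e2 : p.2 = p'.2 := by
                  have h7 := hp.2
                  have h8 := hp'.2
                  rw [e1] at h7
                  exact add_left_cancel (h7.trans h8.symm)
                exact Prod.ext e1 e2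
          _ = Vals.card ^ (k + 1) := by rw [Fintype.card_piFinset]; simp
          _ ≤ M ^ (k + 1) := Nat.pow_le_pow_left hVc _
      exact Finset.card_le_mul_card_image_of_maps_to (f := fun p : L × L => p.1 + p.2) h1 _ h2
    -- linked pairs
    have hcount2 : (P.filter Lk).card ≤ (k + 1) * l * R.card * C₀ * (A + B).card := by
      have h1 : P.filter Lk ⊆ ((univ : Finset (Fin (k + 1))) ×ˢ (univ : Finset (Fin l)) ×ˢ R).biUnion
          fun q => P.filter fun p => t p.2 q.2.1 ≠ 0 ∧ r p.1 q.1 = q.2.2 * t p.2 q.2.1 := by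
        intro p hp
        rw [mem_filter] at hp
        obtain ⟨hpP, i, j, hj, ρ, hρ, he⟩ := hp
        rw [Finset.mem_biUnion]
        exact ⟨(i, j, ρ), by simp [hρ], mem_filter.2 ⟨hpP, hj, he⟩⟩
      have h2 : ∀ q ∈ ((univ : Finset (Fin (k + 1))) ×ˢ (univ : Finset (Fin l)) ×ˢ R),
          (P.filter fun p => t p.2 q.2.1 ≠ 0 ∧ r p.1 q.1 = q.2.2 * t p.2 q.2.1).card
          ≤ C₀ * (A + B).card := by
        rintro ⟨i, j, ρ⟩ _
        dsimp only
        have e1 : P.filter (fun p => t p.2 j ≠ 0 ∧ r p.1 i = ρ * t p.2 j)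
            = B.biUnion fun b => (A.filter fun a => t b j ≠ 0 ∧ r a i = ρ * t b j).map
              ⟨fun a => (a, b), fun a a' h => (Prod.ext_iff.1 h).1⟩ := by
          ext ⟨a, b⟩
          rw [mem_filter, Finset.mem_biUnion, hP, mem_product]
          constructor
          · rintro ⟨⟨ha, hb⟩, h⟩
            exact ⟨b, hb, Finset.mem_map.2 ⟨a, mem_filter.2 ⟨ha, h⟩, rfl⟩⟩
          · rintro ⟨b', hb', hx⟩
            obtain ⟨a', ha', he⟩ := Finset.mem_map.1 hx
            have h8 : a' = a := (Prod.ext_iff.1 he).1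
            have h9 : b' = b := (Prod.ext_iff.1 he).2
            subst h8 h9
            exact ⟨⟨(mem_filter.1 ha').1, hb'⟩, (mem_filter.1 ha').2⟩
        -- each fibre
        have h3 : ∀ b ∈ B, (A.filter fun a => t b j ≠ 0 ∧ r a i = ρ * t b j).card * B.card
            ≤ C₀ * (A + B).card := by
          intro b hb
          rcases (A.filter fun a => t b j ≠ 0 ∧ r a i = ρ * t b j).eq_empty_or_nonempty with h0 | h0
          · rw [h0]; simp
          set τ := ρ * t b j with hτ
          set A₁ := A.filter fun a => t b j ≠ 0 ∧ r a i = τ with hA₁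
          have h4 := hC₀ (A₁.image fun a => a - τ) B (by
            intro x hx
            rw [Finset.mem_image] at hx
            obtain ⟨a, ha, rfl⟩ := hx
            rw [hA₁, mem_filter] at ha
            refine ⟨fun x => r a (i.succAbove x), fun x => (hr a ha.1).1 _, ?_⟩
            have := Fin.sum_univ_succAbove (r a) i
            rw [(hr a ha.1).2.1, ha.2.2] at this
            rw [eq_sub_iff_add_eq, add_comm]
            exact this.symm) hB
          rw [Finset.card_image_of_injective _ (sub_left_injective (b := τ))] at h4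
          refine h4.trans (Nat.mul_le_mul_left _ ?_)
          have e2 : (A₁.image fun a => a - τ) + B = (A₁ + B).image fun x => x - τ := by
            ext x
            simp only [Finset.mem_add, Finset.mem_image]
            constructor
            · rintro ⟨_, ⟨a, ha, rfl⟩, b', hb', rfl⟩
              exact ⟨a + b', ⟨a, ha, b', hb', rfl⟩, by ring⟩
            · rintro ⟨_, ⟨a, ha, b', hb', rfl⟩, rfl⟩
              exact ⟨a - τ, ⟨a, ha, rfl⟩, b', hb', by ring⟩
          rw [e2, Finset.card_image_of_injective _ (sub_left_injective (b := τ))]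
          exact Finset.card_le_card (Finset.add_subset_add_right (Finset.filter_subset _ _))
        rcases B.eq_empty_or_nonempty with hB0 | hB0
        · rw [hP, hB0]; simp
        rw [e1]
        refine Finset.card_biUnion_le.trans ?_
        simp only [Finset.card_map]
        have h4 : B.card * ∑ b ∈ B, (A.filter fun a => t b j ≠ 0 ∧ r a i = ρ * t b j).card
            ≤ B.card * (C₀ * (A + B).card) := by
          rw [Finset.mul_sum]
          calc _ ≤ ∑ b ∈ B, C₀ * (A + B).card := Finset.sum_le_sum fun b hb => by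
                rw [mul_comm]; exact h3 b hb
            _ = _ := by rw [Finset.sum_const, smul_eq_mul]
        exact Nat.le_of_mul_le_mul_left h4 hB0.card_pos
      calc _ ≤ _ := Finset.card_le_card h1
        _ ≤ ∑ q ∈ ((univ : Finset (Fin (k + 1))) ×ˢ (univ : Finset (Fin l)) ×ˢ R), _ :=
            Finset.card_biUnion_le
        _ ≤ ∑ q ∈ ((univ : Finset (Fin (k + 1))) ×ˢ (univ : Finset (Fin l)) ×ˢ R),
            C₀ * (A + B).card := Finset.sum_le_sum h2
        _ = _ := by
            rw [Finset.sum_const, Finset.card_product, Finset.card_product, smul_eq_mul]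
            simp
            ring
    have hPc : A.card * B.card = (P.filter Lk).card + (P.filter fun p => ¬ Lk p).card := by
      rw [Finset.card_filter_add_card_filter_not, hP, Finset.card_product]
    rw [hPc]
    calc _ ≤ (k + 1) * l * R.card * C₀ * (A + B).card + M ^ (k + 1) * (A + B).card :=
          Nat.add_le_add hcount2 hcount1
      _ ≤ _ := by nlinarith [Nat.zero_le (M ^ (k + 1) * (A + B).card),
            Nat.zero_le ((k + 1) * l * R.card * C₀ * (A + B).card)]

end Pool.Agent.N449.SP
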