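import Pool.Agent.N449.SP.UnitNF

/-!
# Integers which are sums of few `S`-units
-/

set_option autoImplicit false

namespace Pool.Agent.N449.SP

open Finset Pointwise

/-- the group of rational numbers generated by the primes of `S` -/
def grp (S : Finset ℕ) : Subgroup ℚˣ :=
  Subgroup.closure {u : ℚˣ | ∃ p ∈ S, (u : ℚ) = (p : ℚ)}

theorem grp_fg (S : Finset ℕ) : (grp S).FG := by
  refine (Subgroup.fg_iff _).2 ⟨_, rfl, ?_⟩
  have h1 : ((fun u : ℚˣ => (u : ℚ)) '' {u : ℚˣ | ∃ p ∈ S, (u : ℚ) = (p : ℚ)}).Finite := by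
    refine (S.finite_toSet.image (fun p : ℕ => (p : ℚ))).subset ?_
    rintro _ ⟨u, ⟨p, hp, h⟩, rfl⟩
    exact ⟨p, hp, h.symm⟩
  exact h1.of_finite_image (Units.val_injective.injOn)

theorem nat_mem (S : Finset ℕ) (n : ℕ) (hn : n ≠ 0) (h : ∀ p : ℕ, p.Prime → p ∣ n → p ∈ S) :
    ∃ u ∈ grp S, ((u : ℚˣ) : ℚ) = n := by
  induction n using Nat.strong_induction_on with
  | _ n ih =>
    rcases (by omega : n = 1 ∨ 1 < n) with h1 | h1
    · exact ⟨1, one_mem _, by simp [h1]⟩
    · have hp : n.minFac.Prime := Nat.minFac_prime (by omega)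
      obtain ⟨m, hm⟩ := n.minFac_dvd
      have hm0 : m ≠ 0 := by
        rintro rfl
        rw [mul_zero] at hm; omega
      have hmn : m < n := by
        conv_rhs => rw [hm]
        have := hp.two_le
        nlinarith [Nat.pos_of_ne_zero hm0]
      obtain ⟨u, hu, hum⟩ := ih m hmn hm0 fun p hp hpm => h p hp (hpm.trans ⟨n.minFac, by rw [mul_comm]; exact hm⟩)
      have hq : (n.minFac : ℚ) ≠ 0 := by exact_mod_cast hp.pos.ne'
      refine ⟨Units.mk0 (n.minFac : ℚ) hq * u, mul_mem (Subgroup.subset_closure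
        ⟨n.minFac, h _ hp n.minFac_dvd, rfl⟩) hu, ?_⟩
      rw [Units.val_mul, Units.val_mk0, hum]
      have : (n : ℚ) = n.minFac * m := by exact_mod_cast hm
      exact this.symm

theorem int_mem (S : Finset ℕ) (n : ℤ) (h : n = 0 ∨ ∀ p : ℕ, p.Prime → (p : ℤ) ∣ n → p ∈ S) :
    (n : ℚ) = 0 ∨ (n : ℚ) ∈ Pm (grp S) := by
  rcases eq_or_ne n 0 with h0 | h0
  · left; simp [h0]
  right
  have h1 := h.resolve_left h0
  obtain ⟨u, hu, hun⟩ := nat_mem S n.natAbs (Int.natAbs_ne_zero.2 h0) fun p hp hpn =>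
    h1 p hp (Int.natCast_dvd.2 hpn)
  refine ⟨u, hu, ?_⟩
  rw [hun]
  have h3 : ((n.natAbs : ℕ) : ℚ) = (((n.natAbs : ℕ) : ℤ) : ℚ) := (Int.cast_natCast _).symm
  rw [h3]
  rcases Int.natAbs_eq n with h2 | h2
  · left; exact congrArg (Int.cast : ℤ → ℚ) h2
  · right
    rw [← Int.cast_neg]
    exact congrArg (Int.cast : ℤ → ℚ) h2

/-- `x` is a sum of at most `k` integers whose prime factors are in `S` -/
def ShortInt (S : Finset ℕ) (k : ℕ) (x : ℤ) : Prop :=
  ∃ s : Fin k → ℤ, (∀ i, s i = 0 ∨ ∀ p : ℕ, p.Prime → (p : ℤ) ∣ s i → p ∈ S) ∧ ∑ i, s i = x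

theorem ShortInt.sp {S : Finset ℕ} {k : ℕ} {x : ℤ} (h : ShortInt S k x) :
    Sp (Pm (grp S)) k (x : ℚ) := by
  obtain ⟨s, hs, rfl⟩ := h
  exact ⟨fun i => (s i : ℚ), fun i => int_mem S _ (hs i), by push_cast; rfl⟩

theorem ShortInt.add {S : Finset ℕ} {k l : ℕ} {x y : ℤ} (hx : ShortInt S k x) (hy : ShortInt S l y) :
    ShortInt S (k + l) (x + y) := by
  obtain ⟨s, hs, rfl⟩ := hx
  obtain ⟨t, ht, rfl⟩ := hy
  refine ⟨Fin.append s t, ?_, ?_⟩
  · intro i
    refine Fin.addCases (fun i => ?_) (fun i => ?_) i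
    · rw [Fin.append_left]; exact hs i
    · rw [Fin.append_right]; exact ht i
  · rw [Fin.sum_univ_add]
    simp

theorem ShortInt.zero (S : Finset ℕ) (k : ℕ) : ShortInt S k 0 :=
  ⟨fun _ => 0, fun _ => Or.inl rfl, by simp⟩

theorem ShortInt.mono {S : Finset ℕ} {k l : ℕ} (hkl : k ≤ l) {x : ℤ} (hx : ShortInt S k x) :
    ShortInt S l x := by
  obtain ⟨m, rfl⟩ := Nat.exists_eq_add_of_le hkl
  simpa using hx.add (ShortInt.zero S m)

theorem h_sets_int (S : Finset ℕ) (k h : ℕ) : ∃ C : ℕ, ∀ A : Fin h → Finset ℤ,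
    (∀ i, ∀ a ∈ A i, ShortInt S k a) → ∏ i, (A i).card ≤ C * (∑ i, A i).card := by
  obtain ⟨C, hC⟩ := h_sets (Pm (grp S)) (Pm.neg _) (ue_numberField ℚ (grp S) (grp_fg S)) k h
  refine ⟨C, fun A hA => ?_⟩
  have h1 := (hC (fun i => (A i).image (Int.castAddHom ℚ)) (by
    intro i a ha
    rw [Finset.mem_image] at ha
    obtain ⟨b, hb, rfl⟩ := ha
    exact (hA i b hb).sp)).2
  have hinj : Function.Injective (Int.castAddHom ℚ) := fun x y hxy => by simpa using hxy
  have h2 : ∑ i, (A i).image (Int.castAddHom ℚ) = (∑ i, A i).image (Int.castAddHom ℚ) :=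
    (map_sum (Finset.imageAddMonoidHom (Int.castAddHom ℚ)) A univ).symm
  rw [h2, Finset.card_image_of_injective _ hinj] at h1
  simpa only [Finset.card_image_of_injective _ hinj] using h1

theorem partner_int (S : Finset ℕ) (k : ℕ) (ε : ℝ) (hε : 0 < ε) : ∃ c : ℝ, 0 < c ∧
    ∀ A B : Finset ℤ, (∀ a ∈ A, ShortInt S k a) → B.Nonempty →
      c * A.card * (B.card : ℝ) ^ (1 - ε) ≤ (A + B).card := by
  obtain ⟨c, hc, h⟩ := partner (Pm (grp S)) (Pm.neg _) (ue_numberField ℚ (grp S) (grp_fg S)) k ε hε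
  refine ⟨c, hc, fun A B hA hB => ?_⟩
  have hinj : Function.Injective (Int.castAddHom ℚ) := fun x y hxy => by simpa using hxy
  have h1 := h ℚ (AddMonoidHom.id ℚ) Function.injective_id (A.image (Int.castAddHom ℚ))
    (B.image (Int.castAddHom ℚ)) (by
    intro a ha
    rw [Finset.mem_image] at ha
    obtain ⟨b, hb, rfl⟩ := ha
    exact (hA b hb).sp) (hB.image _)
  have h2 : (A.image (Int.castAddHom ℚ)).image (AddMonoidHom.id ℚ) + B.image (Int.castAddHom ℚ)
      = (A + B).image (Int.castAddHom ℚ) := by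
    have e1 : (A.image (Int.castAddHom ℚ)).image (AddMonoidHom.id ℚ) = A.image (Int.castAddHom ℚ) :=
      Finset.image_id'
    rw [e1]
    exact (map_add (Finset.imageAddMonoidHom (Int.castAddHom ℚ)) A B).symm
  rw [h2, Finset.card_image_of_injective _ hinj, Finset.card_image_of_injective _ hinj,
    Finset.card_image_of_injective _ hinj] at h1
  exact h1

/-- the digits of a short number -/
theorem short_ofDigits (b : ℕ) (l : List ℕ) (hl : ∀ d ∈ l, d < b) :
    ShortInt (Finset.range (b + 1)) (l.filter (· ≠ 0)).length (Nat.ofDigits b l : ℕ) := by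
  induction l with
  | nil => exact ShortInt.zero _ _
  | cons d l ih =>
    have h1 := ih fun e he => hl e (List.mem_cons_of_mem _ he)
    have hd := hl d List.mem_cons_self
    have h2 : ShortInt (Finset.range (b + 1)) (l.filter (· ≠ 0)).length (b * (Nat.ofDigits b l : ℕ)) := by
      obtain ⟨s, hs, hsum⟩ := h1
      refine ⟨fun i => b * s i, fun i => ?_, by rw [← Finset.mul_sum, hsum]⟩
      rcases hs i with h | h
      · left; simp [h]
      · right
        intro p hp hpd
        rcases (Nat.prime_iff_prime_int.1 hp).dvd_or_dvd hpd with h3 | h3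
        · have h4 : p ∣ b := by exact_mod_cast h3
          have := Nat.le_of_dvd (by omega) h4
          rw [Finset.mem_range]; omega
        · exact h p hp h3
    have h5 : ((Nat.ofDigits b (d :: l) : ℕ) : ℤ) = (d : ℤ) + (b : ℤ) * ((Nat.ofDigits b l : ℕ) : ℤ) := by
      rw [Nat.ofDigits_cons, Nat.cast_add, Nat.cast_mul]
    rw [h5]
    by_cases hd0 : d = 0
    · subst hd0
      have h6 : (List.filter (· ≠ 0) (0 :: l)) = List.filter (· ≠ 0) l := by simp
      rw [h6, Nat.cast_zero, zero_add]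
      exact h2
    · have h3 : ShortInt (Finset.range (b + 1)) 1 (d : ℤ) := by
        refine ⟨fun _ => d, fun _ => Or.inr ?_, by simp⟩
        intro p hp hpd
        have h4 : p ∣ d := Int.natCast_dvd_natCast.1 hpd
        have := Nat.le_of_dvd (by omega) h4
        rw [Finset.mem_range]; omega
      have h4 := h3.add h2
      have h6 : (List.filter (· ≠ 0) (d :: l)).length = 1 + (List.filter (· ≠ 0) l).length := by
        rw [List.filter_cons_of_pos (by simpa using hd0), List.length_cons, add_comm]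
      rw [h6]
      exact h4

theorem short_digits (b : ℕ) (hb : 1 < b) (n : ℕ) :
    ShortInt (Finset.range (b + 1)) ((Nat.digits b n).filter (· ≠ 0)).length n := by
  have h := short_ofDigits b (Nat.digits b n) (fun d hd => Nat.digits_lt_base hb hd)
  rwa [Nat.ofDigits_digits] at h

end Pool.Agent.N449.SP
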