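import Pool.Agent.N449.SP.Comb

/-!
# Sums of several sets, and sums with an arbitrary set
-/

set_option autoImplicit false

namespace Pool.Agent.N449.SP

open Finset Pointwise

variable {L : Type*} [Field L] [DecidableEq L]

omit [DecidableEq L] in
theorem Sp.add {U : Set L} {k l : ℕ} {x y : L} (hx : Sp U k x) (hy : Sp U l y) :
    Sp U (k + l) (x + y) := by
  obtain ⟨s, hs, rfl⟩ := hx
  obtain ⟨t, ht, rfl⟩ := hy
  refine ⟨Fin.append s t, ?_, ?_⟩
  · intro i
    refine Fin.addCases (fun i => ?_) (fun i => ?_) i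
    · rw [Fin.append_left]; exact hs i
    · rw [Fin.append_right]; exact ht i
  · rw [Fin.sum_univ_add]
    simp

theorem h_sets (U : Set L) (hneg : ∀ u ∈ U, -u ∈ U) (hU : UE U) (k h : ℕ) :
    ∃ C : ℕ, ∀ A : Fin h → Finset L, (∀ i, ∀ a ∈ A i, Sp U k a) →
      (∀ x ∈ ∑ i, A i, Sp U (h * k) x) ∧ ∏ i, (A i).card ≤ C * (∑ i, A i).card := by
  induction h with
  | zero =>
    refine ⟨1, fun A _ => ⟨?_, ?_⟩⟩
    · intro x hx
      rw [Fin.sum_univ_zero, Finset.mem_zero] at hx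
      rw [hx, zero_mul, Sp.zero_iff]
    · simp
  | succ h ih =>
    obtain ⟨C₀, hC₀⟩ := ih
    obtain ⟨C₁, hC₁⟩ := two_sets U hneg hU k (h * k)
    refine ⟨C₀ * C₁, fun A hA => ?_⟩
    obtain ⟨h1, h2⟩ := hC₀ (fun i => A i.castSucc) (fun i => hA _)
    have h3 := hC₁ (∑ i : Fin h, A i.castSucc) (A (Fin.last h)) h1 (hA _)
    rw [Fin.sum_univ_castSucc, Fin.prod_univ_castSucc]
    constructor
    · intro x hx
      rw [Finset.mem_add] at hx
      obtain ⟨y, hy, z, hz, rfl⟩ := hx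
      rw [Nat.succ_mul]
      exact (h1 y hy).add (hA _ z hz)
    · calc _ ≤ C₀ * (∑ i : Fin h, A i.castSucc).card * (A (Fin.last h)).card :=
            Nat.mul_le_mul_right _ h2
        _ = C₀ * ((∑ i : Fin h, A i.castSucc).card * (A (Fin.last h)).card) := by ring
        _ ≤ C₀ * (C₁ * (∑ i : Fin h, A i.castSucc + A (Fin.last h)).card) :=
            Nat.mul_le_mul_left _ h3
        _ = _ := by ring

theorem multiple (U : Set L) (hneg : ∀ u ∈ U, -u ∈ U) (hU : UE U) (k h : ℕ) :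
    ∃ C : ℕ, 0 < C ∧ ∀ A : Finset L, (∀ a ∈ A, Sp U k a) → A.card ^ h ≤ C * (h • A).card := by
  obtain ⟨C, hC⟩ := h_sets U hneg hU k h
  refine ⟨C + 1, Nat.succ_pos _, fun A hA => ?_⟩
  have := (hC (fun _ => A) (fun _ => hA)).2
  simp only [Finset.prod_const, Finset.card_univ, Fintype.card_fin, Finset.sum_const] at this
  exact this.trans (Nat.mul_le_mul_right _ (Nat.le_succ C))

theorem partner (U : Set L) (hneg : ∀ u ∈ U, -u ∈ U) (hU : UE U) (k : ℕ) (ε : ℝ) (hε : 0 < ε) :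
    ∃ c : ℝ, 0 < c ∧ ∀ (G : Type*) [AddCommGroup G] [DecidableEq G] (φ : L →+ G),
      Function.Injective φ → ∀ (A : Finset L) (B : Finset G), (∀ a ∈ A, Sp U k a) → B.Nonempty →
      c * A.card * (B.card : ℝ) ^ (1 - ε) ≤ (A.image φ + B).card := by
  obtain ⟨h, hh⟩ := exists_nat_gt (1 / ε)
  have hhr : (0 : ℝ) < h := (one_div_pos.2 hε).trans hh
  have hh0 : h ≠ 0 := by
    rintro rfl
    simp at hhr
  obtain ⟨C, hC0, hC⟩ := multiple U hneg hU k h
  have hCr : (0 : ℝ) < C := by exact_mod_cast hC0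
  refine ⟨((C : ℝ) ^ ((h : ℝ)⁻¹))⁻¹, by positivity, ?_⟩
  intro G _ _ φ hφ A B hA hB
  have hb : (1 : ℝ) ≤ B.card := by exact_mod_cast hB.card_pos
  have hb0 : (0 : ℝ) < B.card := by linarith
  obtain ⟨s, hs⟩ : ∃ s : ℝ, s = ((A.image φ + B).card : ℝ) := ⟨_, rfl⟩
  have hs0 : 0 ≤ s := by rw [hs]; positivity
  rw [← hs]
  -- the inequality of Plünnecke
  have h1 : ((h • A).card : ℝ) ≤ (s / B.card) ^ h * B.card := by
    have h2 := Finset.pluennecke_ruzsa_inequality_nsmul_add hB (A.image φ) h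
    have h3 : h • (A.image φ) = (h • A).image φ := (map_nsmul (Finset.imageAddMonoidHom φ) h A).symm
    rw [h3, Finset.card_image_of_injective _ hφ, add_comm B] at h2
    have h4 : (((h • A).card : ℚ≥0) : ℝ) ≤ ((((A.image φ + B).card / B.card : ℚ≥0) ^ h * B.card : ℚ≥0) : ℝ) :=
      by exact_mod_cast h2
    push_cast at h4
    rwa [← hs] at h4
  have h2 : (A.card : ℝ) ^ h ≤ C * (h • A).card := by exact_mod_cast hC A hA
  have h3 : (A.card : ℝ) ^ h * (B.card : ℝ) ^ (h - 1) ≤ C * s ^ h := by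
    have h4 : (A.card : ℝ) ^ h ≤ C * ((s / B.card) ^ h * B.card) :=
      h2.trans (mul_le_mul_of_nonneg_left h1 hCr.le)
    have h5 : (B.card : ℝ) ^ h = (B.card : ℝ) ^ (h - 1) * B.card := by
      rw [← pow_succ]; congr 1; omega
    have h6 : C * ((s / B.card) ^ h * B.card) * (B.card : ℝ) ^ (h - 1) = C * s ^ h := by
      rw [div_pow, h5]
      field_simp
    rw [← h6]
    exact mul_le_mul_of_nonneg_right h4 (by positivity)
  have h4 : ((A.card : ℝ) * (B.card : ℝ) ^ (1 - ε)) ^ h ≤ ((C : ℝ) ^ ((h : ℝ)⁻¹) * s) ^ h := by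
    rw [mul_pow, mul_pow, Real.rpow_inv_natCast_pow hCr.le hh0]
    refine le_trans (mul_le_mul_of_nonneg_left ?_ (by positivity)) h3
    rw [← Real.rpow_natCast, ← Real.rpow_mul hb0.le, ← Real.rpow_natCast (n := h - 1)]
    refine Real.rpow_le_rpow_of_exponent_le hb ?_
    rw [Nat.cast_sub (by omega)]
    have : 1 < ε * h := by rwa [div_lt_iff₀' hε] at hh
    push_cast
    linarith
  have h5 := (pow_le_pow_iff_left₀ (by positivity) (by positivity) hh0).1 h4
  have h6 : (0 : ℝ) < (C : ℝ) ^ ((h : ℝ)⁻¹) := by positivity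
  rw [mul_assoc, inv_mul_le_iff₀ h6]
  exact h5

end Pool.Agent.N449.SP
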