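import Pool.Agent.X4.SU.UE
import Pool.Agent.N449.SP.Sums

/-!
# The unit equation over a number field
-/

set_option autoImplicit false

namespace Pool.Agent.N449.SP

open Finset NumberField Height Module
open Pool.Agent.Helper259.AbsHt Pool.Agent.H533R3.SL Pool.Agent.Y215.SK Pool.Agent.X4.SU

/-- the elements `± u`, `u ∈ Γ` -/
def Pm {L : Type*} [Field L] (Γ : Subgroup Lˣ) : Set L :=
  {x | ∃ u ∈ Γ, x = u ∨ x = -(u : L)}

theorem Pm.neg {L : Type*} [Field L] (Γ : Subgroup Lˣ) : ∀ u ∈ Pm Γ, -u ∈ Pm Γ := by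
  rintro x ⟨u, hu, rfl | rfl⟩
  · exact ⟨u, hu, Or.inr rfl⟩
  · exact ⟨u, hu, Or.inl (neg_neg _)⟩

theorem ue_numberField (L : Type) [Field L] [NumberField L] (Γ : Subgroup Lˣ) (hΓ : Γ.FG) :
    UE (Pm Γ) := by
  classical
  intro n
  cases n with
  | zero => exact ⟨∅, fun f _ _ _ i => i.elim0⟩
  | succ r =>
    obtain ⟨φ⟩ : Nonempty (L →ₐ[ℚ] Qbar) := ⟨IsAlgClosed.lift⟩
    set f : Lˣ →* Qbarˣ := Units.map (φ : L →* Qbar) with hfdef
    have hf : ∀ u : Lˣ, ((f u : Qbarˣ) : Qbar) = φ (u : L) := fun u => rfl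
    -- the group generated by `Γ` and `-1`
    set Γ' : Subgroup Lˣ := Γ ⊔ Subgroup.zpowers (-1) with hΓ'
    have hz : (Subgroup.zpowers (-1 : Lˣ)).FG :=
      ⟨{-1}, by rw [Finset.coe_singleton, ← Subgroup.zpowers_eq_closure]⟩
    have hfg' : Γ'.FG := hΓ.sup hz
    have hfg : (Γ'.map f).FG := by
      obtain ⟨T, hT⟩ := hfg'
      refine ⟨T.image f, ?_⟩
      rw [Finset.coe_image, ← MonoidHom.map_closure, hT]
    obtain ⟨C, hC⟩ := bounded (Γ'.map f) hfg r
    have hfin : {x : L | logHeight₁ x ≤ C * finrank ℚ L}.Finite :=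
      Northcott.finite_le (h := fun x : L => logHeight₁ x) (C * finrank ℚ L)
    refine ⟨hfin.toFinset, ?_⟩
    intro g hg hsum hnd i j
    have hu : ∀ i, ∃ u : Lˣ, u ∈ Γ' ∧ (u : L) = g i := by
      intro i
      obtain ⟨u, hu, h | h⟩ := hg i
      · exact ⟨u, (le_sup_left : Γ ≤ Γ') hu, h.symm⟩
      · refine ⟨u * (-1), mul_mem ((le_sup_left : Γ ≤ Γ') hu)
          ((le_sup_right : _ ≤ Γ') (Subgroup.mem_zpowers _)), ?_⟩
        rw [h]; simp
    choose u hu hug using hu
    have h1 := hC (fun i => f (u i)) (fun i => Subgroup.mem_map_of_mem f (hu i))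
      (by
        simp only [hf]
        rw [← map_sum]
        simp only [hug]
        rw [hsum, map_zero])
      (by
        intro J hJ h
        simp only [hf] at h
        rw [← map_sum, map_eq_zero] at h
        simp only [hug] at h
        exact hnd J hJ h) i j
    simp only [hf] at h1
    rw [← map_div₀, hug, hug] at h1
    have h2 := h1_eq L (φ : L →+* Qbar) (g i / g j)
    have hpos : (0 : ℝ) < finrank ℚ L := by exact_mod_cast Module.finrank_pos
    have h3 : Pool.Agent.Y215.SK.h1 ((φ : L →+* Qbar) (g i / g j)) ≤ C := h1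
    rw [h2, div_le_iff₀ hpos] at h3
    rw [Set.Finite.mem_toFinset]
    exact h3

end Pool.Agent.N449.SP
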